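import Mathlib

/-!
# The system `5^4 x₁ + 3^6 y₁ = w₁ z₁^12`, `(5^4 - 3^6) x₂ + 3^6 y₂ = w₂ z₂^12` is not partition
regular over `ℤ \ {0}`

Colour a nonzero integer by its 5-adic valuation modulo 3 and by its unit part modulo 5.
-/

namespace Pool.Agent.Results.MP_900fba_co.NotPartitionRegular

instance fact5 : Fact (Nat.Prime 5) := ⟨by norm_num⟩

/-- the 5-adic valuation of a nonzero integer -/
noncomputable def v (x : ℤ) : ℕ := multiplicity 5 x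

lemma exists_unit {x : ℤ} (hx : x ≠ 0) : ∃ x' : ℤ, x = 5 ^ v x * x' ∧ ¬ (5 : ℤ) ∣ x' := by
  have hfin : FiniteMultiplicity (5 : ℤ) x := by
    rw [Int.finiteMultiplicity_iff]
    exact ⟨by decide, hx⟩
  obtain ⟨c, hc, hnd⟩ := hfin.exists_eq_pow_mul_and_not_dvd
  exact ⟨c, hc, hnd⟩

lemma v_unique {a b : ℕ} {x y : ℤ} (hx : ¬ (5 : ℤ) ∣ x) (hy : ¬ (5 : ℤ) ∣ y)
    (h : (5 : ℤ) ^ a * x = 5 ^ b * y) : a = b ∧ x = y := by
  have h5 : (5 : ℤ) ≠ 0 := by norm_num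
  rcases lt_trichotomy a b with hlt | heq | hgt
  · exfalso
    obtain ⟨c, rfl⟩ : ∃ c, b = a + (c + 1) := ⟨b - a - 1, by omega⟩
    apply hx
    have h2 : (5 : ℤ) ^ a * x = 5 ^ a * (5 * (5 ^ c * y)) := by rw [h]; ring
    have h3 := mul_left_cancel₀ (pow_ne_zero a h5) h2
    exact ⟨_, h3⟩
  · subst heq
    exact ⟨rfl, mul_left_cancel₀ (pow_ne_zero a h5) h⟩
  · exfalso
    obtain ⟨c, rfl⟩ : ∃ c, a = b + (c + 1) := ⟨a - b - 1, by omega⟩
    apply hy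
    have h2 : (5 : ℤ) ^ b * y = 5 ^ b * (5 * (5 ^ c * x)) := by rw [← h]; ring
    have h3 := mul_left_cancel₀ (pow_ne_zero b h5) h2
    exact ⟨_, h3⟩

/-- the unit part -/
noncomputable def un (x : ℤ) : ℤ := x / 5 ^ v x

/-- the colouring -/
noncomputable def col (x : ℤ) : ZMod 3 × ZMod 5 := ((v x : ZMod 3), (un x : ZMod 5))

lemma un_spec {x : ℤ} (hx : x ≠ 0) : x = 5 ^ v x * un x ∧ ¬ (5 : ℤ) ∣ un x := by
  obtain ⟨x', h1, h2⟩ := exists_unit hx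
  have h3 : un x = x' := by
    unfold un
    have h5 : (5 : ℤ) ^ v x ≠ 0 := pow_ne_zero _ (by norm_num)
    exact Int.ediv_eq_of_eq_mul_right h5 h1
  rw [h3]
  exact ⟨h1, h2⟩

lemma zmod5 {a : ℤ} (h : ¬ (5 : ℤ) ∣ a) : (a : ZMod 5) ≠ 0 := by
  intro h0
  exact h ((ZMod.intCast_zmod_eq_zero_iff_dvd a 5).1 h0)

lemma not_dvd_of_zmod {a : ℤ} (h : (a : ZMod 5) ≠ 0) : ¬ (5 : ℤ) ∣ a := by
  intro h0
  exact h ((ZMod.intCast_zmod_eq_zero_iff_dvd a 5).2 h0)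

/-- no monochromatic solution of the first equation -/
lemma no_mono {x y w z : ℤ} (hx : x ≠ 0) (hy : y ≠ 0) (hw : w ≠ 0) (hz : z ≠ 0)
    (hxy : col x = col y) (hxw : col x = col w) (hxz : col x = col z)
    (h : 5 ^ 4 * x + 3 ^ 6 * y = w * z ^ 12) : False := by
  obtain ⟨ex, nx⟩ := un_spec hx
  obtain ⟨ey, ny⟩ := un_spec hy
  obtain ⟨ew, nw⟩ := un_spec hw
  obtain ⟨ez, nz⟩ := un_spec hz
  have v1 : (v x : ZMod 3) = v y := congrArg Prod.fst hxy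
  have v2 : (v x : ZMod 3) = v w := congrArg Prod.fst hxw
  have u1 : (un x : ZMod 5) = un y := congrArg Prod.snd hxy
  have u2 : (un x : ZMod 5) = un w := congrArg Prod.snd hxw
  have u3 : (un x : ZMod 5) = un z := congrArg Prod.snd hxz
  -- the right-hand side
  have hR : w * z ^ 12 = 5 ^ (v w + 12 * v z) * (un w * un z ^ 12) := by
    conv_lhs => rw [ew, ez]
    ring
  have hRu : ¬ (5 : ℤ) ∣ un w * un z ^ 12 := by
    apply not_dvd_of_zmod
    push_cast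
    exact mul_ne_zero (zmod5 nw) (pow_ne_zero _ (zmod5 nz))
  have h12 : ((v w + 12 * v z : ℕ) : ZMod 3) = v w := by
    push_cast
    have : (12 : ZMod 3) = 0 := by decide
    rw [this]; ring
  rcases lt_trichotomy (4 + v x) (v y) with hlt | heq | hgt
  · obtain ⟨c, hc⟩ : ∃ c, v y = 4 + v x + (c + 1) := ⟨v y - (4 + v x) - 1, by omega⟩
    have hL : 5 ^ 4 * x + 3 ^ 6 * y = 5 ^ (4 + v x) * (un x + 5 * (3 ^ 6 * 5 ^ c * un y)) := by
      conv_lhs => rw [ex, ey, hc]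
      ring
    have hLu : ¬ (5 : ℤ) ∣ un x + 5 * (3 ^ 6 * 5 ^ c * un y) := by
      intro hd
      exact nx ((Int.dvd_iff_dvd_of_dvd_add hd).2 (dvd_mul_right _ _))
    rw [hL, hR] at h
    have h1 := (v_unique hLu hRu h).1
    have h2 : ((4 + v x : ℕ) : ZMod 3) = v x := by rw [h1, h12, v2]
    push_cast at h2
    have h3 : (4 : ZMod 3) = 0 := by
      have := congrArg (fun t => t - (v x : ZMod 3)) h2
      simpa using this
    exact absurd h3 (by decide)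
  · have h2 : ((4 + v x : ℕ) : ZMod 3) = v x := by rw [heq, v1]
    push_cast at h2
    have h3 : (4 : ZMod 3) = 0 := by
      have := congrArg (fun t => t - (v x : ZMod 3)) h2
      simpa using this
    exact absurd h3 (by decide)
  · obtain ⟨c, hc⟩ : ∃ c, 4 + v x = v y + (c + 1) := ⟨4 + v x - v y - 1, by omega⟩
    have hL : 5 ^ 4 * x + 3 ^ 6 * y = 5 ^ (v y) * (3 ^ 6 * un y + 5 * (5 ^ c * un x)) := by
      have e1 : (5 : ℤ) ^ 4 * x = 5 ^ (v y + (c + 1)) * un x := by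
        rw [← hc]
        conv_lhs => rw [ex]
        ring
      rw [e1]
      conv_lhs => rw [ey]
      have : v (5 ^ v y * un y) = v y := by rw [← ey]
      rw [this]
      ring
    have hz5 : ((3 ^ 6 * un y + 5 * (5 ^ c * un x) : ℤ) : ZMod 5) = 4 * un x := by
      push_cast
      have h5 : (5 : ZMod 5) = 0 := by decide
      have h3 : (729 : ZMod 5) = 4 := by decide
      rw [h5, u1]
      first | rw [h3] | skip
      ring_nf
      first | rw [h3] | skip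
    have hLu : ¬ (5 : ℤ) ∣ 3 ^ 6 * un y + 5 * (5 ^ c * un x) := by
      apply not_dvd_of_zmod
      rw [hz5]
      exact mul_ne_zero (by decide) (zmod5 nx)
    rw [hL, hR] at h
    have h1 := (v_unique hLu hRu h).2
    have h2 : ((3 ^ 6 * un y + 5 * (5 ^ c * un x) : ℤ) : ZMod 5) =
        ((un w * un z ^ 12 : ℤ) : ZMod 5) := by rw [h1]
    rw [hz5] at h2
    push_cast at h2
    rw [← u2, ← u3] at h2
    have key : ∀ a : ZMod 5, a ≠ 0 → 4 * a ≠ a * a ^ 12 := by decide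
    exact key _ (zmod5 nx) h2

/-- **Main theorem.** There is a finite colouring of the nonzero integers for which no solution of
the system has all eight variables in one colour class. -/
theorem result : ∃ (r : ℕ) (c : ℤ → Fin r), ∀ x₁ y₁ w₁ z₁ x₂ y₂ w₂ z₂ : ℤ,
    x₁ ≠ 0 → y₁ ≠ 0 → w₁ ≠ 0 → z₁ ≠ 0 → x₂ ≠ 0 → y₂ ≠ 0 → w₂ ≠ 0 → z₂ ≠ 0 →
    5 ^ 4 * x₁ + 3 ^ 6 * y₁ = w₁ * z₁ ^ 12 →
    (5 ^ 4 - 3 ^ 6) * x₂ + 3 ^ 6 * y₂ = w₂ * z₂ ^ 12 →
    ¬ (c x₁ = c y₁ ∧ c x₁ = c w₁ ∧ c x₁ = c z₁ ∧ c x₁ = c x₂ ∧ c x₁ = c y₂ ∧ c x₁ = c w₂ ∧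
      c x₁ = c z₂) := by
  let e : ZMod 3 × ZMod 5 ≃ Fin (Fintype.card (ZMod 3 × ZMod 5)) := Fintype.equivFin _
  refine ⟨Fintype.card (ZMod 3 × ZMod 5), fun x => e (col x), ?_⟩
  intro x₁ y₁ w₁ z₁ x₂ y₂ w₂ z₂ hx hy hw hz _ _ _ _ h1 _ h
  exact no_mono hx hy hw hz (e.injective h.1) (e.injective h.2.1) (e.injective h.2.2.1) h1

end Pool.Agent.Results.MP_900fba_co.NotPartitionRegular
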